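import Pool.Agent.Q214.BH.Main
import Pool.Agent.Q214.BH.Ctl
import Pool.Agent.Q214.BH.DetFix
import Pool.Agent.Q238.BH.Gen0
import Pool.Agent.Q238.BH.HierA
import Pool.Agent.Q238.BH.HierB
import Pool.Agent.Q238.BH.HierC
import Pool.Agent.Q238.BH.Grp
import Pool.Agent.Q75.BH.Gen
import Pool.Agent.Q75.BH.Low
import Pool.Agent.Q75.BH.EmbZD
import Pool.Agent.Q14.BH.Sol
import Pool.Agent.Q14.BH.NF
import Pool.Agent.Q214.BH.RSR

set_option autoImplicit false

/-!
# MP_d9833d_lc: `BOREL(Γ) ≠ BAIRE_α(Γ)` for suitable countable groups, every countable ordinal `α`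
-/

namespace Pool.Agent.Results.MP_d9833d_lc.BorelVersusBaireClasses

open TopologicalSpace Set

/-- `Sigma0 ξ A`: the set `A` is in the additive Borel class `Σ⁰_ξ`: for `ξ = 1` it is open, for
`ξ > 1` it is a union of a sequence of complements of sets `A n` of classes `Σ⁰_{η n}`,
`1 ≤ η n < ξ`. -/
inductive Sigma0 {X : Type} [TopologicalSpace X] : Ordinal.{0} → Set X → Prop
  | of_isOpen (U : Set X) : IsOpen U → Sigma0 1 U
  | of_union (ξ : Ordinal.{0}) (A : ℕ → Set X) (η : ℕ → Ordinal.{0}) :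
      (∀ n, 1 ≤ η n) → (∀ n, η n < ξ) → (∀ n, Sigma0 (η n) (A n)) → Sigma0 ξ (⋃ n, (A n)ᶜ)

/-- a locally checkable labelling problem on `Γ` -/
structure LCL (Γ : Type) where
  /-- the labels -/
  Lab : Type
  /-- there are finitely many labels -/
  fin : Finite Lab
  /-- the window -/
  S : Finset Γ
  /-- the allowed patterns -/
  A : Set (S → Lab)

/-- `f` is a labelling of `X` for the problem `P` -/
def LCL.IsLabeling {Γ : Type} [Group Γ] (P : LCL Γ) {X : Type} [MulAction Γ X] (f : X → P.Lab) :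
    Prop :=
  ∀ x : X, (fun γ : P.S => f (γ.1 • x)) ∈ P.A

/-- the class `BOREL(Γ)`: every free Borel action on a standard Borel space has a Borel labelling -/
def InBorel {Γ : Type} [Group Γ] (P : LCL Γ) : Prop :=
  ∀ (X : Type) [MeasurableSpace X] [StandardBorelSpace X] [MulAction Γ X],
    (∀ γ : Γ, Measurable (fun x : X => γ • x)) → (∀ (γ : Γ) (x : X), γ • x = x → γ = 1) →
    ∃ f : X → P.Lab, P.IsLabeling f ∧ ∀ l, MeasurableSet (f ⁻¹' {l})

/-- the class `BAIRE_α(Γ)`: every free continuous action on a zero-dimensional Polish space has a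
labelling `f` of Baire class `α`, i.e. the preimages of all sets of labels are `Σ⁰_{1+α}` -/
def InBaire {Γ : Type} [Group Γ] (α : Ordinal.{0}) (P : LCL Γ) : Prop :=
  ∀ (X : Type) [TopologicalSpace X] [PolishSpace X] [MulAction Γ X],
    IsTopologicalBasis {s : Set X | IsClopen s} →
    (∀ γ : Γ, Continuous (fun x : X => γ • x)) → (∀ (γ : Γ) (x : X), γ • x = x → γ = 1) →
    ∃ f : X → P.Lab, P.IsLabeling f ∧ ∀ U : Set P.Lab, Sigma0 (1 + α) (f ⁻¹' U)

lemma sigma0_to {X : Type} [TopologicalSpace X] {ξ : Ordinal.{0}} {A : Set X}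
    (h : Sigma0 ξ A) : Q214.BH.Sigma0 ξ A := by
  induction h with
  | of_isOpen U hU => exact .of_isOpen U hU
  | of_union ξ A η h1 h2 h3 ih => exact .of_union ξ A η h1 h2 ih

lemma transfer (h : Q214.BH.S_MAIN) : ∀ α : Ordinal.{0}, α < Ordinal.omega 1 →
    ∃ (Γ : Type) (_ : Group Γ) (_ : Countable Γ) (P : LCL Γ), InBorel P ∧ ¬ InBaire α P := by
  intro α hα
  obtain ⟨Γ, gΓ, cΓ, P, h1, h2⟩ := h α hα
  refine ⟨Γ, gΓ, cΓ, ⟨P.Lab, P.fin, P.S, P.A⟩, ?_, ?_⟩
  · intro X _ _ _ hm hf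
    exact h1 X hm hf
  · intro hB
    refine h2 ?_
    intro X _ _ _ hz hc hf
    obtain ⟨f, h3, h4⟩ := hB X hz hc hf
    exact ⟨f, h3, fun U => sigma0_to (h4 U)⟩

open Q214.BH in
lemma main_rs (hRS : S_RS) : S_MAIN :=
  main_of (Q14.BH.sol hRS) Q238.BH.grp (Q75.BH.low Q238.BH.gen0 (Q75.BH.gen Q238.BH.gen0))
    Q238.BH.h1 Q238.BH.h2 (Q238.BH.h3 Q238.BH.h1 Q238.BH.h2) (Q238.BH.h4 Q238.BH.h1 Q238.BH.h2)
    Q238.BH.h5 Q75.BH.zd (ctl_of Q75.BH.emb det fix Q75.BH.zd Q14.BH.nf)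

/-- For every countable ordinal `α` there are a countable group `Γ` and a locally checkable
labelling problem on `Γ` which is in `BOREL(Γ)` and not in `BAIRE_α(Γ)`. -/
theorem result : ∀ α : Ordinal.{0}, α < Ordinal.omega 1 →
    ∃ (Γ : Type) (_ : Group Γ) (_ : Countable Γ) (P : LCL Γ), InBorel P ∧ ¬ InBaire α P :=
  transfer (main_rs Q214.BH.RSR.rs)

end Pool.Agent.Results.MP_d9833d_lc.BorelVersusBaireClasses
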